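import Mathlib

/-!
# The lattices of subspaces over division rings: no finite axiomatization

Let `K` be the class of all lattices which are isomorphic to a sublattice of the lattice of subspaces
of a left vector space over a division ring. It is proved that `K` is not specified by a finite set of
first-order sentences.

Proof. Let `p` be a prime number, `R = ℤ / p²` and let `L p` be the lattice of submodules of `R³`. In
`L p` one has the submodules `X n = {(x, n x, 0)}`, and `X (n + 1)` is obtained from `X n` by a fixed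
lattice polynomial (a translation, as a product of two perspectivities). If `L p` were a sublattice of
the lattice of subspaces over a division ring `D`, then `X (p²) = X 0` would imply `p² = 0` in `D`,
hence `p = 0` in `D`, hence `X 0 ≤ X p`, but this is false in `L p`. So `L p` is not in `K`. On
the other hand, let `U` be a nonprincipal ultrafilter on the set of primes. All nonzero integers are
invertible in the ultraproduct `S` of the rings `ℤ / p²`, so that `S³` is a vector space over `ℚ`, and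
the ultraproduct of the lattices `L p` embeds into its lattice of subspaces: it is in `K`. By the
theorem of Łoś this is impossible if `K` is specified by a finite set of sentences.
-/

set_option autoImplicit false

universe v w

namespace Pool.Agent.Results.MP_d4b74c_al.NotFinitelyAxiomatizable

/-- The function symbols of the language of lattices. -/
inductive LatticeSymbol : ℕ → Type
  /-- the binary symbol `∧` -/
  | meet : LatticeSymbol 2
  /-- the binary symbol `∨` -/
  | join : LatticeSymbol 2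

/-- The first-order language `{∧, ∨}` of lattices: two binary function symbols, and no relation
symbols besides equality. -/
def latticeLanguage : FirstOrder.Language.{0, 0} := ⟨LatticeSymbol, fun _ => Empty⟩

/-- A lattice is a structure for the language of lattices. -/
@[reducible] def latticeStructure (L : Type*) [Lattice L] : latticeLanguage.Structure L where
  funMap := fun {_} f => match f with
    | LatticeSymbol.meet => fun x => x 0 ⊓ x 1
    | LatticeSymbol.join => fun x => x 0 ⊔ x 1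
  RelMap := fun {_} r => Empty.elim r

/-- The lattice `L` satisfies the sentence `φ`. -/
def Satisfies (L : Type*) [Lattice L] (φ : latticeLanguage.Sentence) : Prop :=
  @FirstOrder.Language.Sentence.Realize latticeLanguage L (latticeStructure L) φ

/-- The class `K`: the lattice `L` is isomorphic to a sublattice of the lattice of subspaces of some
left vector space `V` over some division ring `D`. -/
def InK (L : Type*) [Lattice L] : Prop :=
  ∃ (D : Type v) (_ : DivisionRing D) (V : Type w) (_ : AddCommGroup V) (_ : Module D V)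
    (f : LatticeHom L (Submodule D V)), Function.Injective f

section frame

variable {R : Type} [CommRing R]

/-- the solutions of two linear equations -/
def sol (a b : R × R × R) : Submodule R (R × R × R) where
  carrier := {v | a.1 * v.1 + a.2.1 * v.2.1 + a.2.2 * v.2.2 = 0 ∧
    b.1 * v.1 + b.2.1 * v.2.1 + b.2.2 * v.2.2 = 0}
  add_mem' := by
    rintro v w ⟨h1, h2⟩ ⟨h3, h4⟩
    constructor
    · simp only [Prod.fst_add, Prod.snd_add]
      linear_combination h1 + h3
    · simp only [Prod.fst_add, Prod.snd_add]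
      linear_combination h2 + h4
  zero_mem' := by
    constructor <;> simp
  smul_mem' := by
    rintro c v ⟨h1, h2⟩
    constructor
    · simp only [Prod.smul_fst, Prod.smul_snd, smul_eq_mul]
      linear_combination c * h1
    · simp only [Prod.smul_fst, Prod.smul_snd, smul_eq_mul]
      linear_combination c * h2

theorem mem_sol {a b v : R × R × R} : v ∈ sol a b ↔
    a.1 * v.1 + a.2.1 * v.2.1 + a.2.2 * v.2.2 = 0 ∧
    b.1 * v.1 + b.2.1 * v.2.1 + b.2.2 * v.2.2 = 0 := Iff.rfl

/-- `(x, 0, 0)` -/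
def a1 (R : Type) [CommRing R] : Submodule R (R × R × R) := sol (0, 1, 0) (0, 0, 1)
/-- `(0, y, 0)` -/
def a2 (R : Type) [CommRing R] : Submodule R (R × R × R) := sol (1, 0, 0) (0, 0, 1)
/-- `(0, 0, z)` -/
def a3 (R : Type) [CommRing R] : Submodule R (R × R × R) := sol (1, 0, 0) (0, 1, 0)
/-- `(x, y, x)` -/
def kk (R : Type) [CommRing R] : Submodule R (R × R × R) := sol (1, 0, -1) (0, 0, 0)
/-- `(x, 0, x)` -/
def cc (R : Type) [CommRing R] : Submodule R (R × R × R) := sol (1, 0, -1) (0, 1, 0)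
/-- `(0, -z, z)` -/
def oo (R : Type) [CommRing R] : Submodule R (R × R × R) := sol (1, 0, 0) (0, 1, 1)
/-- `(x, y, 0)` -/
def ll (R : Type) [CommRing R] : Submodule R (R × R × R) := sol (0, 0, 1) (0, 0, 0)
/-- `(x, n x, 0)` -/
def xx (R : Type) [CommRing R] (n : ℕ) : Submodule R (R × R × R) := sol (-(n : R), 1, 0) (0, 0, 1)

theorem step (n : ℕ) : (((xx R n ⊔ a3 R) ⊓ kk R) ⊔ oo R) ⊓ ll R ≤ xx R (n + 1) := by
  rintro v ⟨hv, hl⟩
  obtain ⟨y, ⟨hy, hk⟩, o, ho, rfl⟩ := Submodule.mem_sup.1 hv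
  obtain ⟨x, hx, a, ha, rfl⟩ := Submodule.mem_sup.1 hy
  have hl' := (mem_sol.1 hl).1
  have hx1 := (mem_sol.1 hx).1
  have hx2 := (mem_sol.1 hx).2
  have ha1 := (mem_sol.1 ha).1
  have ha2 := (mem_sol.1 ha).2
  have hk1 := (mem_sol.1 hk).1
  have ho1 := (mem_sol.1 ho).1
  have ho2 := (mem_sol.1 ho).2
  simp only [Prod.fst_add, Prod.snd_add] at hl' hx1 hx2 ha1 ha2 hk1 ho1 ho2
  refine mem_sol.2 ⟨?_, ?_⟩
  · simp only [Prod.fst_add, Prod.snd_add, Nat.cast_add, Nat.cast_one]
    linear_combination hx1 + ha2 + ho2 - hl' - hk1 - (n : R) * (ha1 + ho1) - ho1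
  · simp only [Prod.fst_add, Prod.snd_add]
    linear_combination hl'

theorem le1 : a1 R ≤ cc R ⊔ a3 R := by
  intro v hv
  obtain ⟨h1, h2⟩ := mem_sol.1 hv
  simp only [zero_mul, one_mul, zero_add, add_zero] at h1 h2
  refine Submodule.mem_sup.2 ⟨(v.1, 0, v.1), mem_sol.2 ⟨?_, ?_⟩, (0, 0, -v.1),
    mem_sol.2 ⟨?_, ?_⟩, ?_⟩
  · simp
  · simp
  · simp
  · simp
  · ext
    · simp
    · simp [h1]
    · simp [h2]

theorem le2 : cc R ≤ kk R := by
  intro v hv
  obtain ⟨h1, h2⟩ := mem_sol.1 hv
  exact mem_sol.2 ⟨h1, by simp⟩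

theorem le3 : a2 R ≤ kk R := by
  intro v hv
  obtain ⟨h1, h2⟩ := mem_sol.1 hv
  refine mem_sol.2 ⟨?_, by simp⟩
  linear_combination h1 - h2

theorem le4 : a1 R ≤ ll R := by
  intro v hv
  obtain ⟨h1, h2⟩ := mem_sol.1 hv
  exact mem_sol.2 ⟨h2, by simp⟩

theorem le5 : a2 R ≤ ll R := by
  intro v hv
  obtain ⟨h1, h2⟩ := mem_sol.1 hv
  exact mem_sol.2 ⟨h2, by simp⟩

theorem le6 : a3 R ≤ oo R ⊔ a2 R := by
  intro v hv
  obtain ⟨h1, h2⟩ := mem_sol.1 hv
  simp only [zero_mul, one_mul, zero_add, add_zero] at h1 h2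
  refine Submodule.mem_sup.2 ⟨(0, -v.2.2, v.2.2), mem_sol.2 ⟨?_, ?_⟩, (0, v.2.2, 0),
    mem_sol.2 ⟨?_, ?_⟩, ?_⟩
  · simp
  · simp
  · simp
  · simp
  · ext
    · simp [h1]
    · simp [h2]
    · simp

theorem bot_of {a b : Submodule R (R × R × R)} (h : ∀ v ∈ a, v ∈ b → v.1 = 0 ∧ v.2.1 = 0 ∧ v.2.2 = 0) :
    a ⊓ b = ⊥ := by
  rw [eq_bot_iff]
  rintro v ⟨h1, h2⟩
  obtain ⟨h3, h4, h5⟩ := h v h1 h2
  rw [Submodule.mem_bot]
  ext <;> simp [h3, h4, h5]

theorem inf1 : a1 R ⊓ a2 R = ⊥ := by
  apply bot_of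
  intro v h1 h2
  obtain ⟨h3, h4⟩ := mem_sol.1 h1
  obtain ⟨h5, h6⟩ := mem_sol.1 h2
  simp only [zero_mul, one_mul, zero_add, add_zero] at h3 h4 h5 h6
  exact ⟨h5, h3, h4⟩

theorem inf2 : oo R ⊓ a3 R = ⊥ := by
  apply bot_of
  intro v h1 h2
  obtain ⟨h3, h4⟩ := mem_sol.1 h1
  obtain ⟨h5, h6⟩ := mem_sol.1 h2
  simp only [zero_mul, one_mul, zero_add, add_zero] at h3 h4 h5 h6
  rw [h6, zero_add] at h4
  exact ⟨h5, h6, h4⟩

theorem inf3 : cc R ⊓ a1 R = ⊥ := by
  apply bot_of
  intro v h1 h2
  obtain ⟨h3, h4⟩ := mem_sol.1 h1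
  obtain ⟨h5, h6⟩ := mem_sol.1 h2
  simp only [zero_mul, one_mul, zero_add, add_zero, neg_mul] at h3 h4 h5 h6
  rw [h6, neg_zero, add_zero] at h3
  exact ⟨h3, h4, h6⟩

theorem xx_zero {n : ℕ} (h : (n : R) = 0) : xx R n = a1 R := by
  unfold xx a1
  rw [h, neg_zero]

/-- The lattice of submodules of `R³` does not embed into the lattice of subspaces of a vector space
over a division ring if `p = 0` is false and `p² = 0` is true in `R`. -/
theorem no_embedding {p : ℕ} (h1 : (p : R) ≠ 0) (h2 : ((p ^ 2 : ℕ) : R) = 0)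
    {D : Type v} {V : Type w} [DivisionRing D] [AddCommGroup V] [Module D V]
    (f : LatticeHom (Submodule R (R × R × R)) (Submodule D V)) (hf : Function.Injective f) :
    False := by
  have mono : ∀ {a b : Submodule R (R × R × R)}, a ≤ b → f a ≤ f b := fun h =>
    OrderHomClass.mono f h
  -- multiples of `w`
  have key : ∀ v z w : V, v ∈ f (a1 R) → z ∈ f (a3 R) → v + z ∈ f (kk R) → w ∈ f (a2 R) →
      z - w ∈ f (oo R) → ∀ n : ℕ, v + (n : D) • w ∈ f (xx R n) := by
    intro v z w hv hz hvz hw hzw n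
    induction n with
    | zero =>
      rw [xx_zero Nat.cast_zero, Nat.cast_zero, zero_smul, add_zero]
      exact hv
    | succ n ih =>
      apply mono (step n)
      rw [map_inf, map_sup, map_inf, map_sup]
      refine ⟨?_, ?_⟩
      · refine Submodule.mem_sup.2 ⟨v + (n : D) • w + z, ⟨?_, ?_⟩, -(z - w), Submodule.neg_mem _ hzw, ?_⟩
        · exact Submodule.mem_sup.2 ⟨_, ih, z, hz, rfl⟩
        · have h3 : v + (n : D) • w + z = (v + z) + (n : D) • w := by abel
          rw [SetLike.mem_coe, h3]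
          exact Submodule.add_mem _ hvz (Submodule.smul_mem _ _ (mono le3 hw))
        · rw [Nat.cast_add, Nat.cast_one, add_smul, one_smul]
          abel
      · exact Submodule.add_mem _ (mono le4 hv) (Submodule.smul_mem _ _ (mono le5 hw))
  -- the elements which belong to `v`
  have ex : ∀ v ∈ f (a1 R), ∃ z w : V, z ∈ f (a3 R) ∧ v + z ∈ f (cc R) ∧ w ∈ f (a2 R) ∧
      z - w ∈ f (oo R) := by
    intro v hv
    have h3 : v ∈ f (cc R) ⊔ f (a3 R) := by
      rw [← map_sup]
      exact mono le1 hv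
    obtain ⟨c, hc, z, hz, rfl⟩ := Submodule.mem_sup.1 h3
    have hz' : -z ∈ f (a3 R) := Submodule.neg_mem _ hz
    have h4 : -z ∈ f (oo R) ⊔ f (a2 R) := by
      rw [← map_sup]
      exact mono le6 hz'
    obtain ⟨o, ho, w, hw, how⟩ := Submodule.mem_sup.1 h4
    refine ⟨-z, w, hz', ?_, hw, ?_⟩
    · rw [add_neg_cancel_right]
      exact hc
    · rw [← how, add_sub_cancel_right]
      exact ho
  have hbot : f (a1 R) ≠ f ⊥ := by
    intro h
    have h3 := hf h
    have h4 : ((1, 0, 0) : R × R × R) ∈ a1 R := mem_sol.2 ⟨by simp, by simp⟩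
    rw [h3, Submodule.mem_bot] at h4
    have h5 : (1 : R) = 0 := congrArg Prod.fst h4
    apply h1
    rw [← mul_one (p : R), h5, mul_zero]
  obtain ⟨v, hv, hv0⟩ : ∃ v ∈ f (a1 R), v ∉ f ⊥ := by
    by_contra hcon
    push Not at hcon
    exact hbot (le_antisymm hcon (mono bot_le))
  have hinf : ∀ {a b : Submodule R (R × R × R)}, a ⊓ b = ⊥ → ∀ x ∈ f a, x ∈ f b → x ∈ f ⊥ := by
    intro a b hab x hxa hxb
    rw [← hab, map_inf]
    exact ⟨hxa, hxb⟩
  -- the characteristic of `D`
  have hp2 : ((p ^ 2 : ℕ) : D) = 0 := by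
    by_contra hne
    obtain ⟨z, w, hz, hvz, hw, hzw⟩ := ex v hv
    have h3 := key v z w hv hz (mono le2 hvz) hw hzw (p ^ 2)
    rw [xx_zero h2] at h3
    have h4 : ((p ^ 2 : ℕ) : D) • w ∈ f (a1 R) := by
      have := Submodule.sub_mem _ h3 hv
      rwa [add_sub_cancel_left] at this
    have h5 : w ∈ f (a1 R) := by
      have := Submodule.smul_mem _ (((p ^ 2 : ℕ) : D)⁻¹) h4
      rwa [smul_smul, inv_mul_cancel₀ hne, one_smul] at this
    have h6 : w ∈ f ⊥ := hinf inf1 w h5 hw
    have h7 : z ∈ f (oo R) := by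
      have := Submodule.add_mem _ hzw (mono (bot_le : ⊥ ≤ oo R) h6)
      rwa [sub_add_cancel] at this
    have h8 : z ∈ f ⊥ := hinf inf2 z h7 hz
    have h9 : v ∈ f (cc R) := by
      have := Submodule.sub_mem _ hvz (mono (bot_le : ⊥ ≤ cc R) h8)
      rwa [add_sub_cancel_right] at this
    exact hv0 (hinf inf3 v h9 hv)
  have hp : (p : D) = 0 := by
    rw [Nat.cast_pow] at hp2
    exact pow_eq_zero_iff (two_ne_zero) |>.1 hp2
  have hle : f (a1 R) ≤ f (xx R p) := by
    intro x hx
    obtain ⟨z, w, hz, hvz, hw, hzw⟩ := ex x hx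
    have h3 := key x z w hx hz (mono le2 hvz) hw hzw p
    rwa [hp, zero_smul, add_zero] at h3
  have h3 : f (a1 R ⊓ xx R p) = f (a1 R) := by
    rw [map_inf]
    exact inf_eq_left.2 hle
  have h4 : a1 R ≤ xx R p := inf_eq_left.1 (hf h3)
  have h5 : ((1, 0, 0) : R × R × R) ∈ xx R p := h4 (mem_sol.2 ⟨by simp, by simp⟩)
  have h6 := (mem_sol.1 h5).1
  apply h1
  simpa using h6

end frame

section ultra

/-- the ring `ℤ / p²` -/
abbrev RR (p : Nat.Primes) : Type := ZMod ((p : ℕ) ^ 2)

/-- the module `R³` -/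
abbrev MM (p : Nat.Primes) : Type := RR p × RR p × RR p

/-- the lattice `L p` -/
abbrev LL (p : Nat.Primes) : Type := Submodule (RR p) (MM p)

/-- a nonprincipal ultrafilter on the set of primes -/
noncomputable abbrev U : Ultrafilter Nat.Primes := Filter.hyperfilter Nat.Primes

theorem eventually_coprime (n : ℕ) (hn : n ≠ 0) :
    ∀ᶠ p : Nat.Primes in (U : Filter Nat.Primes), n.Coprime ((p : ℕ) ^ 2) := by
  have h : {p : Nat.Primes | ¬ n.Coprime ((p : ℕ) ^ 2)}.Finite := by
    apply Set.Finite.of_finite_image (f := fun p : Nat.Primes => (p : ℕ)) _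
      Nat.Primes.coe_nat_injective.injOn
    apply (Set.finite_Iic n).subset
    rintro _ ⟨p, hp, rfl⟩
    rw [Set.mem_Iic]
    by_contra hlt
    apply hp
    apply Nat.Coprime.pow_right
    rw [Nat.coprime_comm]
    rw [p.2.coprime_iff_not_dvd]
    intro hd
    exact hlt (Nat.le_of_dvd (Nat.pos_of_ne_zero hn) hd)
  have h1 := h.compl_mem_hyperfilter
  filter_upwards [h1] with p hp
  by_contra hcon
  exact hp hcon

/-- the sequences which are zero almost everywhere -/
noncomputable def II : Ideal (∀ p, RR p) where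
  carrier := {x | ∀ᶠ p in (U : Filter Nat.Primes), x p = 0}
  add_mem' := by
    intro x y hx hy
    filter_upwards [hx, hy] with p h1 h2
    rw [Pi.add_apply, h1, h2, add_zero]
  zero_mem' := Filter.Eventually.of_forall fun p => rfl
  smul_mem' := by
    intro c x hx
    filter_upwards [hx] with p h1
    rw [Pi.smul_apply', h1, smul_zero]

theorem mem_II {x : ∀ p, RR p} : x ∈ II ↔ ∀ᶠ p in (U : Filter Nat.Primes), x p = 0 := Iff.rfl

/-- the ultraproduct of the rings `ℤ / p²` -/
abbrev SS : Type := (∀ p, RR p) ⧸ II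

/-- the class of a sequence -/
noncomputable abbrev mk : (∀ p, RR p) →+* SS := Ideal.Quotient.mk II

theorem mk_eq {x y : ∀ p, RR p} : mk x = mk y ↔ ∀ᶠ p in (U : Filter Nat.Primes), x p = y p := by
  rw [Ideal.Quotient.eq, mem_II]
  simp only [Pi.sub_apply, sub_eq_zero]

theorem isUnit_natCast (m : ℕ) (hm : m ≠ 0) : IsUnit (m : SS) := by
  have h : (m : SS) = mk (fun p => (m : RR p)) := by
    have h1 : (fun p => (m : RR p)) = ((m : ℕ) : ∀ p, RR p) := by
      ext p
      rw [Pi.natCast_apply]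
    rw [h1, map_natCast]
  rw [h]
  refine IsUnit.of_mul_eq_one (mk fun p => (Ring.inverse (m : RR p))) ?_
  rw [← map_mul, ← map_one mk, mk_eq]
  filter_upwards [eventually_coprime m hm] with p hp
  rw [Pi.mul_apply, Pi.one_apply]
  exact Ring.mul_inverse_cancel _ ((ZMod.isUnit_iff_coprime _ _).2 hp)

theorem isUnit_cast (m : ℤ) (hm : m ≠ 0) : IsUnit (m : SS) := by
  have h := isUnit_natCast m.natAbs (Int.natAbs_ne_zero.2 hm)
  rcases Int.natAbs_eq m with h1 | h1
  · rw [h1, Int.cast_natCast]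
    exact h
  · rw [h1, Int.cast_neg, Int.cast_natCast]
    exact h.neg

/-- the homomorphism from `ℚ` -/
noncomputable def qq : ℚ →+* SS :=
  IsLocalization.lift (M := nonZeroDivisors ℤ) (g := Int.castRingHom SS)
    (fun y => isUnit_cast y (nonZeroDivisors.coe_ne_zero y))

/-- the vector space `S³` over `ℚ` -/
abbrev WW : Type := SS × SS × SS

/-- the structure of a vector space -/
@[reducible] noncomputable def modWW : Module ℚ WW := Module.compHom WW qq

attribute [local instance] modWW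

theorem smul_eq (c : ℚ) (x : WW) : c • x = qq c • x := rfl

/-- the class of a sequence of triples -/
noncomputable def cls (x : ∀ p, MM p) : WW :=
  (mk fun p => (x p).1, mk fun p => (x p).2.1, mk fun p => (x p).2.2)

theorem cls_eq {x y : ∀ p, MM p} : cls x = cls y ↔ ∀ᶠ p in (U : Filter Nat.Primes), x p = y p := by
  unfold cls
  rw [Prod.ext_iff, Prod.ext_iff]
  dsimp only
  rw [mk_eq, mk_eq, mk_eq, ← Filter.eventually_and, ← Filter.eventually_and]
  apply Filter.eventually_congr
  apply Filter.Eventually.of_forall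
  intro p
  rw [Prod.ext_iff, Prod.ext_iff]

theorem cls_add (x y : ∀ p, MM p) : cls (fun p => x p + y p) = cls x + cls y := by
  unfold cls
  rw [Prod.mk_add_mk, Prod.mk_add_mk, ← map_add, ← map_add, ← map_add]
  rfl

theorem cls_smul (c : ∀ p, RR p) (x : ∀ p, MM p) : cls (fun p => c p • x p) = mk c • cls x := by
  unfold cls
  rw [Prod.smul_mk, Prod.smul_mk, smul_eq_mul, smul_eq_mul, smul_eq_mul, ← map_mul, ← map_mul,
    ← map_mul]
  rfl

/-- the subspace of `S³` given by a sequence of submodules -/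
noncomputable def FF (H : ∀ p, LL p) : Submodule ℚ WW where
  carrier := {v | ∃ x : ∀ p, MM p, cls x = v ∧ ∀ᶠ p in (U : Filter Nat.Primes), x p ∈ H p}
  add_mem' := by
    rintro _ _ ⟨x, rfl, hx⟩ ⟨y, rfl, hy⟩
    refine ⟨_, cls_add x y, ?_⟩
    filter_upwards [hx, hy] with p h1 h2
    exact Submodule.add_mem _ h1 h2
  zero_mem' := ⟨fun _ => 0, by
    unfold cls
    have : mk (fun p => (0 : RR p)) = 0 := map_zero mk
    exact Prod.ext this (Prod.ext this this), Filter.Eventually.of_forall fun p => Submodule.zero_mem _⟩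
  smul_mem' := by
    rintro c _ ⟨x, rfl, hx⟩
    obtain ⟨r, hr⟩ := Ideal.Quotient.mk_surjective (qq c)
    refine ⟨fun p => r p • x p, ?_, ?_⟩
    · rw [cls_smul, smul_eq, hr]
    · filter_upwards [hx] with p h1
      exact Submodule.smul_mem _ _ h1

theorem mem_FF {H : ∀ p, LL p} {x : ∀ p, MM p} :
    cls x ∈ FF H ↔ ∀ᶠ p in (U : Filter Nat.Primes), x p ∈ H p := by
  constructor
  · rintro ⟨y, hy, h⟩
    filter_upwards [cls_eq.1 hy, h] with p h1 h2
    rwa [← h1]
  · exact fun h => ⟨x, rfl, h⟩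

theorem cls_surj (v : WW) : ∃ x, cls x = v := by
  obtain ⟨x, hx⟩ := Ideal.Quotient.mk_surjective v.1
  obtain ⟨y, hy⟩ := Ideal.Quotient.mk_surjective v.2.1
  obtain ⟨z, hz⟩ := Ideal.Quotient.mk_surjective v.2.2
  exact ⟨fun p => (x p, y p, z p), Prod.ext hx (Prod.ext hy hz)⟩

theorem FF_inf (H H' : ∀ p, LL p) : FF (fun p => H p ⊓ H' p) = FF H ⊓ FF H' := by
  ext v
  obtain ⟨x, rfl⟩ := cls_surj v
  rw [Submodule.mem_inf, mem_FF, mem_FF, mem_FF, ← Filter.eventually_and]
  rfl

theorem FF_sup (H H' : ∀ p, LL p) : FF (fun p => H p ⊔ H' p) = FF H ⊔ FF H' := by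
  ext v
  obtain ⟨x, rfl⟩ := cls_surj v
  rw [mem_FF, Submodule.mem_sup]
  constructor
  · intro h
    have h1 : ∀ p, ∃ y z : MM p, x p ∈ H p ⊔ H' p → y ∈ H p ∧ z ∈ H' p ∧ y + z = x p := by
      intro p
      by_cases hx : x p ∈ H p ⊔ H' p
      · obtain ⟨y, hy, z, hz, hyz⟩ := Submodule.mem_sup.1 hx
        exact ⟨y, z, fun _ => ⟨hy, hz, hyz⟩⟩
      · exact ⟨0, 0, fun h => absurd h hx⟩
    choose y z hyz using h1
    refine ⟨cls y, mem_FF.2 ?_, cls z, mem_FF.2 ?_, ?_⟩
    · filter_upwards [h] with p hp using (hyz p hp).1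
    · filter_upwards [h] with p hp using (hyz p hp).2.1
    · rw [← cls_add, cls_eq]
      filter_upwards [h] with p hp using (hyz p hp).2.2
  · rintro ⟨y', hy', z', hz', h⟩
    obtain ⟨y, rfl⟩ := cls_surj y'
    obtain ⟨z, rfl⟩ := cls_surj z'
    rw [← cls_add, cls_eq] at h
    filter_upwards [h, mem_FF.1 hy', mem_FF.1 hz'] with p h1 h2 h3
    rw [← h1]
    exact Submodule.add_mem_sup h2 h3

theorem FF_le {H H' : ∀ p, LL p} (h : FF H ≤ FF H') :
    ∀ᶠ p in (U : Filter Nat.Primes), H p ≤ H' p := by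
  by_contra hcon
  rw [← Ultrafilter.eventually_not] at hcon
  have h1 : ∀ p, ∃ x : MM p, ¬ H p ≤ H' p → x ∈ H p ∧ x ∉ H' p := by
    intro p
    by_cases hp : H p ≤ H' p
    · exact ⟨0, fun h => absurd hp h⟩
    · obtain ⟨x, h2, h3⟩ := SetLike.not_le_iff_exists.1 hp
      exact ⟨x, fun _ => ⟨h2, h3⟩⟩
  choose x hx using h1
  have h2 : cls x ∈ FF H' := h (mem_FF.2 (by filter_upwards [hcon] with p hp using (hx p hp).1))
  have h3 := (hcon.and (mem_FF.1 h2)).exists
  obtain ⟨p, h4, h5⟩ := h3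
  exact (hx p h4).2 h5

theorem FF_eq {H H' : ∀ p, LL p} : FF H = FF H' ↔ ∀ᶠ p in (U : Filter Nat.Primes), H p = H' p := by
  constructor
  · intro h
    filter_upwards [FF_le h.le, FF_le h.ge] with p h1 h2
    exact le_antisymm h1 h2
  · intro h
    ext v
    obtain ⟨x, rfl⟩ := cls_surj v
    rw [mem_FF, mem_FF]
    apply Filter.eventually_congr
    filter_upwards [h] with p hp
    rw [hp]

/-- the sublattice of the internal subspaces -/
noncomputable def QQ : Sublattice (Submodule ℚ WW) where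
  carrier := Set.range FF
  supClosed' := by
    rintro _ ⟨H, rfl⟩ _ ⟨H', rfl⟩
    exact ⟨_, FF_sup H H'⟩
  infClosed' := by
    rintro _ ⟨H, rfl⟩ _ ⟨H', rfl⟩
    exact ⟨_, FF_inf H H'⟩

attribute [local instance] latticeStructure

/-- the ultraproduct of the lattices `L p` -/
abbrev Ult : Type := (U : Filter Nat.Primes).Product LL

/-- the map from the ultraproduct to the sublattice -/
noncomputable def toQQ : Ult → QQ :=
  Quotient.lift (fun H => ⟨FF H, H, rfl⟩) fun _ _ h => Subtype.ext (FF_eq.2 h)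

theorem toQQ_bij : Function.Bijective toQQ := by
  constructor
  · rintro ⟨H⟩ ⟨H'⟩ h
    exact Quotient.sound (FF_eq.1 (congrArg Subtype.val h))
  · rintro ⟨_, H, rfl⟩
    exact ⟨Quotient.mk _ H, rfl⟩

/-- the isomorphism of structures -/
noncomputable def isoQQ : latticeLanguage.Equiv Ult QQ :=
  { Equiv.ofBijective toQQ toQQ_bij with
    map_fun' := by
      intro n f x
      have hx : ∀ i, ∃ y : ∀ p, LL p, x i = (y : Ult) := fun i => ⟨(x i).out, ((x i).out_eq).symm⟩
      choose y hy using hx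
      have hxy : x = fun i => (y i : Ult) := funext hy
      rw [hxy]
      refine Eq.trans (congrArg toQQ (FirstOrder.Language.Ultraproduct.funMap_cast f y)) ?_
      apply Subtype.ext
      cases f with
      | meet => exact FF_inf (y 0) (y 1)
      | join => exact FF_sup (y 0) (y 1)
    map_rel' := by
      intro n r x
      exact Empty.elim r }

theorem satisfies_iff (φ : latticeLanguage.Sentence) :
    Satisfies QQ φ ↔ ∀ᶠ p in (U : Filter Nat.Primes), Satisfies (LL p) φ :=
  (FirstOrder.Language.StrongHomClass.realize_sentence isoQQ φ).symm.trans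
    (FirstOrder.Language.Ultraproduct.sentence_realize φ)

/-- a change of the universes -/
def up (S : Submodule ℚ WW) : Submodule (ULift.{v} ℚ) (ULift.{w} WW) where
  carrier := {x | x.down ∈ S}
  add_mem' := fun h h' => Submodule.add_mem S h h'
  zero_mem' := Submodule.zero_mem S
  smul_mem' := fun c _ h => Submodule.smul_mem S c.down h

theorem inK_QQ : InK.{v, w} QQ := by
  refine ⟨ULift.{v} ℚ, inferInstance, ULift.{w} WW, inferInstance, inferInstance,
    { toFun := fun S => up S.1
      map_sup' := ?_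
      map_inf' := ?_ }, ?_⟩
  · rintro ⟨S, hS⟩ ⟨T, hT⟩
    ext x
    change x.down ∈ S ⊔ T ↔ x ∈ up S ⊔ up T
    rw [Submodule.mem_sup, Submodule.mem_sup]
    constructor
    · rintro ⟨y, hy, z, hz, h⟩
      exact ⟨⟨y⟩, hy, ⟨z⟩, hz, ULift.ext _ _ h⟩
    · rintro ⟨y, hy, z, hz, h⟩
      exact ⟨y.down, hy, z.down, hz, congrArg ULift.down h⟩
  · rintro ⟨S, hS⟩ ⟨T, hT⟩
    rfl
  · rintro ⟨S, hS⟩ ⟨T, hT⟩ h
    apply Subtype.ext
    ext x
    exact SetLike.ext_iff.1 h (ULift.up x)

theorem not_inK_LL (p : Nat.Primes) : ¬ InK.{v, w} (LL p) := by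
  rintro ⟨D, _, V, _, _, f, hf⟩
  refine no_embedding (R := RR p) (p := p) ?_ ?_ f hf
  · intro h
    rw [ZMod.natCast_eq_zero_iff] at h
    have h1 := Nat.le_of_dvd p.2.pos h
    have h2 := p.2.two_le
    nlinarith
  · exact ZMod.natCast_self _

end ultra

/-- **The class `K` of the lattices which embed into the lattice of subspaces of a left vector space
over a division ring is not specified by a finite set of first-order sentences.** -/
theorem result : ¬ ∃ S : Set latticeLanguage.Sentence, S.Finite ∧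
    ∀ (L : Type) [Lattice L], InK.{v, w} L ↔ ∀ φ ∈ S, Satisfies L φ := by
  rintro ⟨S, hS, h⟩
  have h1 := (h QQ).1 inK_QQ
  have h2 : ∀ φ ∈ S, ∀ᶠ p in (U : Filter Nat.Primes), Satisfies (LL p) φ :=
    fun φ hφ => (satisfies_iff φ).1 (h1 φ hφ)
  obtain ⟨p, hp⟩ := ((Filter.eventually_all_finite hS).2 h2).exists
  exact not_inK_LL p ((h (LL p)).2 hp)

end Pool.Agent.Results.MP_d4b74c_al.NotFinitelyAxiomatizable
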